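import Pool.Agent.Helper84.SO.PotentialLe

set_option autoImplicit false

namespace Pool.Agent.Helper28.SO

private theorem exists_pos_le_of_finite {T : Type*} [Finite T] (f : T → ℝ) (P : T → Prop)
    (h : ∀ t, P t → 0 < f t) : ∃ δ : ℝ, 0 < δ ∧ ∀ t, P t → δ ≤ f t := by
  classical
  have := Fintype.ofFinite T
  by_cases hne : (Finset.univ.filter P).Nonempty
  · obtain ⟨t, ht, hmin⟩ := Finset.exists_min_image (Finset.univ.filter P) f hne
    refine ⟨f t, h t (Finset.mem_filter.1 ht).2, fun s hs => hmin s ?_⟩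
    exact Finset.mem_filter.2 ⟨Finset.mem_univ _, hs⟩
  · refine ⟨1, one_pos, fun s hs => absurd ⟨s, ?_⟩ hne⟩
    exact Finset.mem_filter.2 ⟨Finset.mem_univ _, hs⟩

private theorem exists_cycle_bound {κ : Type*} [Fintype κ] [DecidableEq κ] (E : Finset (κ × κ × ℝ))
    (hcyc : ∀ (m : ℕ) (p : Fin (m + 1) → κ × κ × ℝ), (∀ t, p t ∈ E) →
      (∀ t : Fin (m + 1), (p t).2.1 = (p (t + 1)).1) →
      Function.Injective (fun t => (p t).1) → 0 < ∑ t, (p t).2.2) :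
    ∃ δ : ℝ, 0 < δ ∧ ∀ (m : ℕ) (p : Fin (m + 1) → κ × κ × ℝ), (∀ t, p t ∈ E) →
      (∀ t : Fin (m + 1), (p t).2.1 = (p (t + 1)).1) →
      Function.Injective (fun t => (p t).1) → δ ≤ ∑ t, (p t).2.2 := by
  obtain ⟨δ, hδ, h⟩ := exists_pos_le_of_finite
    (T := Σ m : Fin (Fintype.card κ), (Fin ((m : ℕ) + 1) → {e // e ∈ E}))
    (fun t => ∑ i, ((t.2 i).1).2.2)
    (fun t => (∀ i, ((t.2 i).1).2.1 = ((t.2 (i + 1)).1).1) ∧
      Function.Injective (fun i => ((t.2 i).1).1))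
    (fun t ht => hcyc _ (fun i => (t.2 i).1) (fun i => (t.2 i).2) ht.1 ht.2)
  refine ⟨δ, hδ, fun m p hp hc hi => ?_⟩
  have hm : m + 1 ≤ Fintype.card κ := by
    have := Fintype.card_le_of_injective _ hi
    rwa [Fintype.card_fin] at this
  exact h ⟨⟨m, hm⟩, fun i => ⟨p i, hp i⟩⟩ ⟨hc, hi⟩

/-- SO-2. -/
theorem potential_lt {κ : Type*} [Fintype κ] [DecidableEq κ] (E : Finset (κ × κ × ℝ))
    (hcyc : ∀ (m : ℕ) (p : Fin (m + 1) → κ × κ × ℝ), (∀ t, p t ∈ E) →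
      (∀ t : Fin (m + 1), (p t).2.1 = (p (t + 1)).1) →
      Function.Injective (fun t => (p t).1) → 0 < ∑ t, (p t).2.2) :
    ∃ α : κ → ℝ, ∀ e ∈ E, α e.2.1 - α e.1 < e.2.2 := by
  classical
  obtain ⟨δ, hδ, hb⟩ := exists_cycle_bound E hcyc
  obtain ⟨η, hη, hηb⟩ : ∃ η : ℝ, 0 < η ∧ ∀ m : ℕ, m ≤ Fintype.card κ → (m : ℝ) * η ≤ δ := by
    refine ⟨δ / (Fintype.card κ + 1), by positivity, fun m hm => ?_⟩
    rw [← mul_div_assoc, div_le_iff₀ (by positivity)]
    have h1 : (m : ℝ) ≤ Fintype.card κ + 1 := by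
      have : (m : ℝ) ≤ Fintype.card κ := by exact_mod_cast hm
      linarith
    nlinarith
  obtain ⟨α, hα⟩ := potential_le (E.image fun e => (e.1, e.2.1, e.2.2 - η)) (by
    intro m p hp hc hi
    have hmem : ∀ t, ((p t).1, (p t).2.1, (p t).2.2 + η) ∈ E := by
      intro t
      obtain ⟨e, he, hpe⟩ := Finset.mem_image.1 (hp t)
      rw [← hpe]
      simpa using he
    have h1 := hb m (fun t => ((p t).1, (p t).2.1, (p t).2.2 + η)) hmem hc hi
    have hm : m + 1 ≤ Fintype.card κ := by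
      have := Fintype.card_le_of_injective _ hi
      rwa [Fintype.card_fin] at this
    have h2 := hηb (m + 1) hm
    have h3 : ∑ t, ((p t).2.2 + η) = ∑ t, (p t).2.2 + ((m + 1 : ℕ) : ℝ) * η := by
      rw [Finset.sum_add_distrib, Finset.sum_const, Finset.card_univ, Fintype.card_fin,
        nsmul_eq_mul]
    simp only [h3] at h1
    linarith)
  refine ⟨α, fun e he => ?_⟩
  have h := hα (e.1, e.2.1, e.2.2 - η) (Finset.mem_image.2 ⟨e, he, rfl⟩)
  simp only at h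
  linarith

end Pool.Agent.Helper28.SO
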